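import Pool.Agent.MP_815c6c_an.W.G.G129x0
import Pool.Agent.MP_815c6c_an.W.G.G129x1

/-! The certificate on the slab. -/

set_option autoImplicit false
set_option maxRecDepth 4000

namespace Pool.Agent.MP_815c6c_an.W.G129

open AA LA

theorem c6 : Cov (G dd) 0 492581209243648 140737488355328 70368744177664 1099511627776 549755813888 :=
  Cov.s1 c7 c8 (by decide)

theorem c4 : Cov (G dd) 0 492581209243648 0 140737488355328 1099511627776 549755813888 :=
  Cov.s2 c5 c6 (by decide)

theorem c15 : Cov (G dd) 985162418487296 492581209243648 246290604621824 17592186044416 1099511627776 549755813888 :=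
  Cov.s2 c16 c17 (by decide)

theorem c13 : Cov (G dd) 985162418487296 492581209243648 211106232532992 35184372088832 1099511627776 549755813888 :=
  Cov.s2 c14 c15 (by decide)

theorem c11 : Cov (G dd) 985162418487296 492581209243648 140737488355328 70368744177664 1099511627776 549755813888 :=
  Cov.s2 c12 c13 (by decide)

theorem c9 : Cov (G dd) 985162418487296 492581209243648 0 140737488355328 1099511627776 549755813888 :=
  Cov.s2 c10 c11 (by decide)

theorem c3 : Cov (G dd) 0 985162418487296 0 140737488355328 1099511627776 549755813888 :=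
  Cov.s1 c4 c9 (by decide)

theorem c2 : Cov (G dd) 0 1970324836974592 0 140737488355328 1099511627776 549755813888 :=
  Cov.s1 c3 c18 (by decide)

theorem c22 : Cov (G dd) 0 492581209243648 281474976710656 70368744177664 1099511627776 549755813888 :=
  Cov.s1 c23 c24 (by decide)

theorem c21 : Cov (G dd) 0 492581209243648 281474976710656 140737488355328 1099511627776 549755813888 :=
  Cov.s2 c22 c25 (by decide)

theorem c29 : Cov (G dd) 985162418487296 492581209243648 281474976710656 17592186044416 1099511627776 549755813888 :=
  Cov.s2 c30 c31 (by decide)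

theorem c28 : Cov (G dd) 985162418487296 492581209243648 281474976710656 35184372088832 1099511627776 549755813888 :=
  Cov.s2 c29 c32 (by decide)

theorem c27 : Cov (G dd) 985162418487296 492581209243648 281474976710656 70368744177664 1099511627776 549755813888 :=
  Cov.s2 c28 c33 (by decide)

theorem c26 : Cov (G dd) 985162418487296 492581209243648 281474976710656 140737488355328 1099511627776 549755813888 :=
  Cov.s2 c27 c34 (by decide)

theorem c20 : Cov (G dd) 0 985162418487296 281474976710656 140737488355328 1099511627776 549755813888 :=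
  Cov.s1 c21 c26 (by decide)

theorem c19 : Cov (G dd) 0 1970324836974592 281474976710656 140737488355328 1099511627776 549755813888 :=
  Cov.s1 c20 c35 (by decide)

theorem c1 : Cov (G dd) 0 1970324836974592 0 281474976710656 1099511627776 549755813888 :=
  Cov.s2 c2 c19 (by decide)

theorem cert (x : ℝ) (xa : 129 ≤ x) (xb : x ≤ 257) :
    ∃ (q : ℝ) (F : ℝ × ℝ → ℝ) (j : ℝ → ℝ → J6) (κ τ₀ τ₁ C δ e : ℝ),
      q < x - 1 ∧ CertR (x - 2) q F j κ τ₀ τ₁ C δ e :=
  piece ok c1 x (by push_cast; exact xa) (by push_cast; exact xb)

end Pool.Agent.MP_815c6c_an.W.G129
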