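import Pool.Agent.MP_815c6c_an.W.G.G2049x0
import Pool.Agent.MP_815c6c_an.W.G.G2049x1

/-! The certificate on the slab. -/

set_option autoImplicit false
set_option maxRecDepth 4000

namespace Pool.Agent.MP_815c6c_an.W.G2049

open AA LA

theorem c9 : Cov (G dd) 3025855999639552 756463999909888 0 8796093022208 68719476736 34359738368 :=
  Cov.s2 c10 c11 (by decide)

theorem c8 : Cov (G dd) 3025855999639552 756463999909888 0 17592186044416 68719476736 34359738368 :=
  Cov.s2 c9 c12 (by decide)

theorem c7 : Cov (G dd) 3025855999639552 756463999909888 0 35184372088832 68719476736 34359738368 :=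
  Cov.s2 c8 c13 (by decide)

theorem c18 : Cov (G dd) 4538783999459328 756463999909888 0 2199023255552 68719476736 34359738368 :=
  Cov.s2 c19 c20 (by decide)

theorem c17 : Cov (G dd) 4538783999459328 756463999909888 0 4398046511104 68719476736 34359738368 :=
  Cov.s2 c18 c21 (by decide)

theorem c16 : Cov (G dd) 4538783999459328 756463999909888 0 8796093022208 68719476736 34359738368 :=
  Cov.s2 c17 c22 (by decide)

theorem c15 : Cov (G dd) 4538783999459328 756463999909888 0 17592186044416 68719476736 34359738368 :=
  Cov.s2 c16 c23 (by decide)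

theorem c14 : Cov (G dd) 4538783999459328 756463999909888 0 35184372088832 68719476736 34359738368 :=
  Cov.s2 c15 c24 (by decide)

theorem c6 : Cov (G dd) 3025855999639552 1512927999819776 0 35184372088832 68719476736 34359738368 :=
  Cov.s1 c7 c14 (by decide)

theorem c5 : Cov (G dd) 3025855999639552 1512927999819776 0 70368744177664 68719476736 34359738368 :=
  Cov.s2 c6 c25 (by decide)

theorem c4 : Cov (G dd) 3025855999639552 1512927999819776 0 140737488355328 68719476736 34359738368 :=
  Cov.s2 c5 c26 (by decide)

theorem c2 : Cov (G dd) 0 3025855999639552 0 140737488355328 68719476736 34359738368 :=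
  Cov.s1 c3 c4 (by decide)

theorem c41 : Cov (G dd) 1134695999864832 189115999977472 545357767376896 8796093022208 68719476736 34359738368 :=
  Cov.s2 c42 c43 (by decide)

theorem c39 : Cov (G dd) 1134695999864832 189115999977472 527765581332480 17592186044416 68719476736 34359738368 :=
  Cov.s2 c40 c41 (by decide)

theorem c37 : Cov (G dd) 756463999909888 378231999954944 527765581332480 17592186044416 68719476736 34359738368 :=
  Cov.s1 c38 c39 (by decide)

theorem c35 : Cov (G dd) 756463999909888 378231999954944 492581209243648 35184372088832 68719476736 34359738368 :=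
  Cov.s2 c36 c37 (by decide)

theorem c33 : Cov (G dd) 756463999909888 378231999954944 422212465065984 70368744177664 68719476736 34359738368 :=
  Cov.s2 c34 c35 (by decide)

theorem c31 : Cov (G dd) 756463999909888 378231999954944 281474976710656 140737488355328 68719476736 34359738368 :=
  Cov.s2 c32 c33 (by decide)

theorem c29 : Cov (G dd) 0 756463999909888 281474976710656 140737488355328 68719476736 34359738368 :=
  Cov.s1 c30 c31 (by decide)

theorem c47 : Cov (G dd) 1512927999819776 756463999909888 422212465065984 35184372088832 68719476736 34359738368 :=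
  Cov.s2 c48 c49 (by decide)

theorem c46 : Cov (G dd) 1512927999819776 756463999909888 422212465065984 70368744177664 68719476736 34359738368 :=
  Cov.s2 c47 c50 (by decide)

theorem c44 : Cov (G dd) 1512927999819776 756463999909888 281474976710656 140737488355328 68719476736 34359738368 :=
  Cov.s2 c45 c46 (by decide)

theorem c28 : Cov (G dd) 0 1512927999819776 281474976710656 140737488355328 68719476736 34359738368 :=
  Cov.s1 c29 c44 (by decide)

theorem c27 : Cov (G dd) 0 3025855999639552 281474976710656 140737488355328 68719476736 34359738368 :=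
  Cov.s1 c28 c51 (by decide)

theorem c1 : Cov (G dd) 0 3025855999639552 0 281474976710656 68719476736 34359738368 :=
  Cov.s2 c2 c27 (by decide)

theorem cert (x : ℝ) (xa : 2049 ≤ x) (xb : x ≤ 4097) :
    ∃ (q : ℝ) (F : ℝ × ℝ → ℝ) (j : ℝ → ℝ → J6) (κ τ₀ τ₁ C δ e : ℝ),
      q < x - 1 ∧ CertR (x - 2) q F j κ τ₀ τ₁ C δ e :=
  piece ok c1 x (by push_cast; exact xa) (by push_cast; exact xb)

end Pool.Agent.MP_815c6c_an.W.G2049
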