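import Pool.Agent.MP_815c6c_an.W.G.G4097x0
import Pool.Agent.MP_815c6c_an.W.G.G4097x1

/-! The certificate on the slab. -/

set_option autoImplicit false
set_option maxRecDepth 4000

namespace Pool.Agent.MP_815c6c_an.W.G4097

open AA LA

theorem c9 : Cov (G dd) 2533274790395904 633318697598976 0 8796093022208 34359738368 17179869184 :=
  Cov.s2 c10 c11 (by decide)

theorem c8 : Cov (G dd) 2533274790395904 633318697598976 0 17592186044416 34359738368 17179869184 :=
  Cov.s2 c9 c12 (by decide)

theorem c7 : Cov (G dd) 2533274790395904 633318697598976 0 35184372088832 34359738368 17179869184 :=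
  Cov.s2 c8 c13 (by decide)

theorem c18 : Cov (G dd) 3799912185593856 633318697598976 0 2199023255552 34359738368 17179869184 :=
  Cov.s2 c19 c20 (by decide)

theorem c17 : Cov (G dd) 3799912185593856 633318697598976 0 4398046511104 34359738368 17179869184 :=
  Cov.s2 c18 c21 (by decide)

theorem c16 : Cov (G dd) 3799912185593856 633318697598976 0 8796093022208 34359738368 17179869184 :=
  Cov.s2 c17 c22 (by decide)

theorem c15 : Cov (G dd) 3799912185593856 633318697598976 0 17592186044416 34359738368 17179869184 :=
  Cov.s2 c16 c23 (by decide)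

theorem c14 : Cov (G dd) 3799912185593856 633318697598976 0 35184372088832 34359738368 17179869184 :=
  Cov.s2 c15 c24 (by decide)

theorem c6 : Cov (G dd) 2533274790395904 1266637395197952 0 35184372088832 34359738368 17179869184 :=
  Cov.s1 c7 c14 (by decide)

theorem c5 : Cov (G dd) 2533274790395904 1266637395197952 0 70368744177664 34359738368 17179869184 :=
  Cov.s2 c6 c25 (by decide)

theorem c4 : Cov (G dd) 2533274790395904 1266637395197952 0 140737488355328 34359738368 17179869184 :=
  Cov.s2 c5 c26 (by decide)

theorem c2 : Cov (G dd) 0 2533274790395904 0 140737488355328 34359738368 17179869184 :=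
  Cov.s1 c3 c4 (by decide)

theorem c29 : Cov (G dd) 0 633318697598976 281474976710656 140737488355328 34359738368 17179869184 :=
  Cov.s2 c30 c31 (by decide)

theorem c37 : Cov (G dd) 1266637395197952 316659348799488 492581209243648 35184372088832 34359738368 17179869184 :=
  Cov.s2 c38 c39 (by decide)

theorem c36 : Cov (G dd) 1266637395197952 633318697598976 492581209243648 35184372088832 34359738368 17179869184 :=
  Cov.s1 c37 c40 (by decide)

theorem c34 : Cov (G dd) 1266637395197952 633318697598976 422212465065984 70368744177664 34359738368 17179869184 :=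
  Cov.s2 c35 c36 (by decide)

theorem c32 : Cov (G dd) 1266637395197952 633318697598976 281474976710656 140737488355328 34359738368 17179869184 :=
  Cov.s2 c33 c34 (by decide)

theorem c28 : Cov (G dd) 0 1266637395197952 281474976710656 140737488355328 34359738368 17179869184 :=
  Cov.s1 c29 c32 (by decide)

theorem c27 : Cov (G dd) 0 2533274790395904 281474976710656 140737488355328 34359738368 17179869184 :=
  Cov.s1 c28 c41 (by decide)

theorem c1 : Cov (G dd) 0 2533274790395904 0 281474976710656 34359738368 17179869184 :=
  Cov.s2 c2 c27 (by decide)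

theorem cert (x : ℝ) (xa : 4097 ≤ x) (xb : x ≤ 8193) :
    ∃ (q : ℝ) (F : ℝ × ℝ → ℝ) (j : ℝ → ℝ → J6) (κ τ₀ τ₁ C δ e : ℝ),
      q < x - 1 ∧ CertR (x - 2) q F j κ τ₀ τ₁ C δ e :=
  piece ok c1 x (by push_cast; exact xa) (by push_cast; exact xb)

end Pool.Agent.MP_815c6c_an.W.G4097
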