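import Pool.Agent.MP_815c6c_an.W.G.G65x0
import Pool.Agent.MP_815c6c_an.W.G.G65x1

/-! The certificate on the slab. -/

set_option autoImplicit false
set_option maxRecDepth 4000

namespace Pool.Agent.MP_815c6c_an.W.G65

open AA LA

theorem c8 : Cov (G dd) 510173395288064 255086697644032 140737488355328 70368744177664 2199023255552 1099511627776 :=
  Cov.s2 c9 c10 (by decide)

theorem c6 : Cov (G dd) 0 510173395288064 140737488355328 70368744177664 2199023255552 1099511627776 :=
  Cov.s1 c7 c8 (by decide)

theorem c4 : Cov (G dd) 0 510173395288064 0 140737488355328 2199023255552 1099511627776 :=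
  Cov.s2 c5 c6 (by decide)

theorem c15 : Cov (G dd) 1020346790576128 510173395288064 211106232532992 35184372088832 2199023255552 1099511627776 :=
  Cov.s2 c16 c17 (by decide)

theorem c13 : Cov (G dd) 1020346790576128 510173395288064 140737488355328 70368744177664 2199023255552 1099511627776 :=
  Cov.s2 c14 c15 (by decide)

theorem c11 : Cov (G dd) 1020346790576128 510173395288064 0 140737488355328 2199023255552 1099511627776 :=
  Cov.s2 c12 c13 (by decide)

theorem c3 : Cov (G dd) 0 1020346790576128 0 140737488355328 2199023255552 1099511627776 :=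
  Cov.s1 c4 c11 (by decide)

theorem c2 : Cov (G dd) 0 2040693581152256 0 140737488355328 2199023255552 1099511627776 :=
  Cov.s1 c3 c18 (by decide)

theorem c25 : Cov (G dd) 510173395288064 255086697644032 281474976710656 35184372088832 2199023255552 1099511627776 :=
  Cov.s2 c26 c27 (by decide)

theorem c24 : Cov (G dd) 510173395288064 255086697644032 281474976710656 70368744177664 2199023255552 1099511627776 :=
  Cov.s2 c25 c28 (by decide)

theorem c22 : Cov (G dd) 0 510173395288064 281474976710656 70368744177664 2199023255552 1099511627776 :=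
  Cov.s1 c23 c24 (by decide)

theorem c21 : Cov (G dd) 0 510173395288064 281474976710656 140737488355328 2199023255552 1099511627776 :=
  Cov.s2 c22 c29 (by decide)

theorem c35 : Cov (G dd) 1020346790576128 510173395288064 299067162755072 8796093022208 2199023255552 1099511627776 :=
  Cov.s1 c36 c37 (by decide)

theorem c33 : Cov (G dd) 1020346790576128 510173395288064 281474976710656 17592186044416 2199023255552 1099511627776 :=
  Cov.s2 c34 c35 (by decide)

theorem c38 : Cov (G dd) 1020346790576128 510173395288064 316659348799488 17592186044416 2199023255552 1099511627776 :=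
  Cov.s1 c39 c40 (by decide)

theorem c32 : Cov (G dd) 1020346790576128 510173395288064 281474976710656 35184372088832 2199023255552 1099511627776 :=
  Cov.s2 c33 c38 (by decide)

theorem c31 : Cov (G dd) 1020346790576128 510173395288064 281474976710656 70368744177664 2199023255552 1099511627776 :=
  Cov.s2 c32 c41 (by decide)

theorem c30 : Cov (G dd) 1020346790576128 510173395288064 281474976710656 140737488355328 2199023255552 1099511627776 :=
  Cov.s2 c31 c42 (by decide)

theorem c20 : Cov (G dd) 0 1020346790576128 281474976710656 140737488355328 2199023255552 1099511627776 :=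
  Cov.s1 c21 c30 (by decide)

theorem c19 : Cov (G dd) 0 2040693581152256 281474976710656 140737488355328 2199023255552 1099511627776 :=
  Cov.s1 c20 c43 (by decide)

theorem c1 : Cov (G dd) 0 2040693581152256 0 281474976710656 2199023255552 1099511627776 :=
  Cov.s2 c2 c19 (by decide)

theorem cert (x : ℝ) (xa : 65 ≤ x) (xb : x ≤ 129) :
    ∃ (q : ℝ) (F : ℝ × ℝ → ℝ) (j : ℝ → ℝ → J6) (κ τ₀ τ₁ C δ e : ℝ),
      q < x - 1 ∧ CertR (x - 2) q F j κ τ₀ τ₁ C δ e :=
  piece ok c1 x (by push_cast; exact xa) (by push_cast; exact xb)

end Pool.Agent.MP_815c6c_an.W.G65
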