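import Pool.Agent.MP_815c6c_an.W.G.G8193x0

/-! The certificate on the slab. -/

set_option autoImplicit false
set_option maxRecDepth 4000

namespace Pool.Agent.MP_815c6c_an.W.G8193

open AA LA

theorem c10 : Cov (G dd) 3272146604261376 545357767376896 0 8796093022208 17179869184 8589934592 :=
  Cov.s2 c11 c12 (by decide)

theorem c9 : Cov (G dd) 3272146604261376 545357767376896 0 17592186044416 17179869184 8589934592 :=
  Cov.s2 c10 c13 (by decide)

theorem c8 : Cov (G dd) 3272146604261376 545357767376896 0 35184372088832 17179869184 8589934592 :=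
  Cov.s2 c9 c14 (by decide)

theorem c6 : Cov (G dd) 2181431069507584 1090715534753792 0 35184372088832 17179869184 8589934592 :=
  Cov.s1 c7 c8 (by decide)

theorem c5 : Cov (G dd) 2181431069507584 1090715534753792 0 70368744177664 17179869184 8589934592 :=
  Cov.s2 c6 c15 (by decide)

theorem c4 : Cov (G dd) 2181431069507584 1090715534753792 0 140737488355328 17179869184 8589934592 :=
  Cov.s2 c5 c16 (by decide)

theorem c2 : Cov (G dd) 0 2181431069507584 0 140737488355328 17179869184 8589934592 :=
  Cov.s1 c3 c4 (by decide)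

theorem c17 : Cov (G dd) 0 2181431069507584 281474976710656 140737488355328 17179869184 8589934592 :=
  Cov.s1 c18 c19 (by decide)

theorem c1 : Cov (G dd) 0 2181431069507584 0 281474976710656 17179869184 8589934592 :=
  Cov.s2 c2 c17 (by decide)

theorem cert (x : ℝ) (xa : 8193 ≤ x) (xb : x ≤ 16385) :
    ∃ (q : ℝ) (F : ℝ × ℝ → ℝ) (j : ℝ → ℝ → J6) (κ τ₀ τ₁ C δ e : ℝ),
      q < x - 1 ∧ CertR (x - 2) q F j κ τ₀ τ₁ C δ e :=
  piece ok c1 x (by push_cast; exact xa) (by push_cast; exact xb)

end Pool.Agent.MP_815c6c_an.W.G8193
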