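import Pool.Agent.MP_815c6c_an.W.G.G22
import Pool.Agent.MP_815c6c_an.W.G.G33
import Pool.Agent.MP_815c6c_an.W.G.G65
import Pool.Agent.MP_815c6c_an.W.G.G129
import Pool.Agent.MP_815c6c_an.W.G.G257
import Pool.Agent.MP_815c6c_an.W.G.G513
import Pool.Agent.MP_815c6c_an.W.G.G1025
import Pool.Agent.MP_815c6c_an.W.G.G2049
import Pool.Agent.MP_815c6c_an.W.G.G4097
import Pool.Agent.MP_815c6c_an.W.G.G8193
import Pool.Agent.MP_815c6c_an.W.Tail

/-! The certificate for all large exponents. -/

set_option autoImplicit false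

namespace Pool.Agent.MP_815c6c_an.W.G

theorem hi (x : ℝ) (h : 67 / 3 ≤ x) :
    ∃ (q : ℝ) (F : ℝ × ℝ → ℝ) (j : ℝ → ℝ → J6) (κ τ₀ τ₁ C δ e : ℝ),
      q < x - 1 ∧ CertR (x - 2) q F j κ τ₀ τ₁ C δ e := by
  rcases le_total x 33 with a | h
  · exact G22.cert x h a
  rcases le_total x 65 with a | h
  · exact G33.cert x h a
  rcases le_total x 129 with a | h
  · exact G65.cert x h a
  rcases le_total x 257 with a | h
  · exact G129.cert x h a
  rcases le_total x 513 with a | h
  · exact G257.cert x h a
  rcases le_total x 1025 with a | h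
  · exact G513.cert x h a
  rcases le_total x 2049 with a | h
  · exact G1025.cert x h a
  rcases le_total x 4097 with a | h
  · exact G2049.cert x h a
  rcases le_total x 8193 with a | h
  · exact G4097.cert x h a
  rcases le_total x 16385 with a | h
  · exact G8193.cert x h a
  exact Tl.tail x h

end Pool.Agent.MP_815c6c_an.W.G
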