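import Pool.Agent.MP_815c6c_an.W.LA

/-! Data of the slab. -/

set_option autoImplicit false
set_option maxRecDepth 4000

namespace Pool.Agent.MP_815c6c_an.W.G1025

open AA LA

def pc : Pc := ⟨1153202979583557632, [1152952050414256128, 1152908327647182848, 1152893054743478272, 1152913344168984576, 1152934904904810496, 1152929561965494272],
  1152952050414256128, [1152895150687518720, 1152836155016740864, 1152888862855397376, 1152988506096664576, 1152969848758730752],
  1152895150687518720, [1152750805426634752, 1152823579352498176, 1153189510566117376, 1153163225366265856],
  347445674377216, 81432579932160, 1154091384978800640, [(1154299059864185792, 195918969932632), (1153209781630978282, 282684667691157), (1153244163294406786, 275308527785955), (1153287632024698051, 267274034600814), (1153333135172943665, 260040686135653), (1153386843806938488, 252668612168416), (1153445214648745362, 245770578631240), (1153510943302153800, 239051049448486), (1153586488022191973, 232391367290832), (1153671221529990624, 225947659401449), (1153767330824850679, 219648199641756), (1153876765557311722, 213472394079272), (1153998711960192013, 207544847775805), (1154134950149201609,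 201832091783264)],
  39, 31, 30, 41, 37, 28⟩

def dd : Pw.D := ⟨[281474976710656 / 2 ^ 48, 30545807409152 / 2 ^ 48, -13176959664128 / 2 ^ 48, -28449863368704 / 2 ^ 48, -8160437862400 / 2 ^ 48, 13400297963520 / 2 ^ 48, 8057358647296 / 2 ^ 48],
  79 / 64, 30, 133 / 32, 2661 / 512, 64, 79, [(960 / 133, 81255 / 16384), (67 / 64, 4251 / 4096), (77 / 64, 2379 / 2048), (45 / 32, 5399 / 4096), (13 / 8, 3035 / 2048), (121 / 64, 3431 / 2048), (35 / 16, 30891 / 16384), (81 / 32, 2173 / 1024), (47 / 16, 4903 / 2048), (109 / 32, 22111 / 8192), (253 / 64, 49891 / 16384), (147 / 32, 28173 / 8192), (341 / 64, 63539 / 16384), (395 / 64, 71575 / 16384)]⟩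

theorem ok : okB pc dd (1025) (2049) 4222124650659840 137438953472 68719476736 = true := by decide +kernel

end Pool.Agent.MP_815c6c_an.W.G1025
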