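import Pool.Agent.MP_815c6c_an.W.LA

/-! Data of the slab. -/

set_option autoImplicit false
set_option maxRecDepth 4000

namespace Pool.Agent.MP_815c6c_an.W.G129

open AA LA

def pc : Pc := ⟨1153202979583557632, [1152918996345946112, 1152820143378661376, 1153001803315412992, 1153111582679498752, 1152810075975319552, 1152709247323078656, 1152970192356114432, 1153007661650804736],
  1152918996345946112, [1152718782150475776, 1153162400732545024, 1153681816897454080, 1152364361449209856, 1151647960904237056, 1153262318851719168, 1153610760958509056],
  1152718782150475776, [1153403296858243072, 1155202441478668288, 1150692931976298496, 1146553786093797376, 1154966390076080128, 1157746299068481536],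
  426610511577088, 219971045031936, 1153519638932357120, [(1153905130802428095, 136259905881367), (1153213747394502741, 254774567427677), (1153241851988992761, 243006297153809), (1153276567393270457, 230435678065451), (1153312113475217810, 219379394603995), (1153353145490941847, 208364763188827), (1153396738762813989, 198274418420259), (1153444779621375747, 188669655994353), (1153498790975688156, 179357906987786), (1153558028677005481, 170547521062928), (1153623721436047424, 162120444570610), (1153696872988331484, 154045079392268), (1153776583433048867, 146466683273917), (1153863666142084445, 139320603744044)],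
  36, 31, 30, 38, 37, 28⟩

def dd : Pw.D := ⟨[281474976710656 / 2 ^ 48, -2508260900864 / 2 ^ 48, -101361228185600 / 2 ^ 48, 80298708566016 / 2 ^ 48, 190078072651776 / 2 ^ 48, -111428631527424 / 2 ^ 48, -212257283768320 / 2 ^ 48, 48687749267456 / 2 ^ 48, 86157043957760 / 2 ^ 48],
  97 / 64, 14, 17 / 8, 379 / 128, 64, 97, [(112 / 17, 28419 / 8192), (67 / 64, 16887 / 16384), (77 / 64, 18511 / 16384), (45 / 32, 20517 / 16384), (13 / 8, 22571 / 16384), (121 / 64, 12471 / 8192), (35 / 16, 27461 / 16384), (81 / 32, 30237 / 16384), (47 / 16, 16679 / 8192), (109 / 32, 36781 / 16384), (253 / 64, 40577 / 16384), (147 / 32, 11201 / 4096), (341 / 64, 24705 / 8192), (395 / 64, 27221 / 8192)]⟩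

theorem ok : okB pc dd (129) (257) 1970324836974592 1099511627776 549755813888 = true := by decide +kernel

end Pool.Agent.MP_815c6c_an.W.G129
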