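import Pool.Agent.MP_815c6c_an.W.LA

/-! Data of the slab. -/

set_option autoImplicit false
set_option maxRecDepth 4000

namespace Pool.Agent.MP_815c6c_an.W.G2049

open AA LA

def pc : Pc := ⟨1153202979583557632, [1152943460479664128, 1152915594731847680, 1152902469311791104, 1152912553895002112, 1152928256295436288, 1152926761646817280],
  1152943460479664128, [1152909684856848384, 1152864398721679360, 1152885701759467520, 1152955263049793536, 1152953046846668800],
  1152909684856848384, [1152807292836511744, 1152814096064708608, 1153056538378633216, 1153079215805956096],
  356241767399424, 94626719465472, 1153950647490445312, [(1154038840316382575, 195648386895427), (1153207251351899301, 281048733463139), (1153240455029479551, 272965399275867), (1153282304446814739, 264179412458828), (1153325953658223427, 256274635795018), (1153377357122602983, 248264217432122), (1153433032995343929, 240778025343219), (1153495554813766315, 233512431711859), (1153567193346093714, 226329157254657), (1153647326233627813, 219406027337093), (1153737938296001069, 212654970926669), (1153840795686276261, 206053909363669), (1153955091020196119, 199741154606198)],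
  40, 31, 30, 42, 37, 28⟩

def dd : Pw.D := ⟨[281474976710656 / 2 ^ 48, 21955872817152 / 2 ^ 48, -5909874999296 / 2 ^ 48, -19035295055872 / 2 ^ 48, -8950711844864 / 2 ^ 48, 6751688589312 / 2 ^ 48, 5257039970304 / 2 ^ 48],
  81 / 64, 43 / 2, 117 / 32, 4777 / 1024, 64, 81, [(688 / 117, 66427 / 16384), (67 / 64, 4247 / 4096), (77 / 64, 9481 / 8192), (45 / 32, 10725 / 8192), (13 / 8, 24045 / 16384), (121 / 64, 27101 / 16384), (35 / 16, 30411 / 16384), (81 / 32, 2133 / 1024), (47 / 16, 38387 / 16384), (109 / 32, 43151 / 16384), (253 / 64, 24269 / 8192), (147 / 32, 54653 / 16384), (341 / 64, 7681 / 2048)]⟩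

theorem ok : okB pc dd (2049) (4097) 3025855999639552 68719476736 34359738368 = true := by decide +kernel

end Pool.Agent.MP_815c6c_an.W.G2049
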