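import Pool.Agent.MP_815c6c_an.W.G.G22x0
import Pool.Agent.MP_815c6c_an.W.G.G22x1

/-! The certificate on the slab. -/

set_option autoImplicit false
set_option maxRecDepth 4000

namespace Pool.Agent.MP_815c6c_an.W.G22

open AA LA

theorem c8 : Cov (G dd) 422212465065984 211106232532992 140737488355328 70368744177664 8796093022208 2199023255552 :=
  Cov.s2 c9 c10 (by decide)

theorem c6 : Cov (G dd) 0 422212465065984 140737488355328 70368744177664 8796093022208 2199023255552 :=
  Cov.s1 c7 c8 (by decide)

theorem c4 : Cov (G dd) 0 422212465065984 0 140737488355328 8796093022208 2199023255552 :=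
  Cov.s2 c5 c6 (by decide)

theorem c13 : Cov (G dd) 844424930131968 422212465065984 140737488355328 70368744177664 8796093022208 2199023255552 :=
  Cov.s2 c14 c15 (by decide)

theorem c11 : Cov (G dd) 844424930131968 422212465065984 0 140737488355328 8796093022208 2199023255552 :=
  Cov.s2 c12 c13 (by decide)

theorem c3 : Cov (G dd) 0 844424930131968 0 140737488355328 8796093022208 2199023255552 :=
  Cov.s1 c4 c11 (by decide)

theorem c2 : Cov (G dd) 0 1688849860263936 0 140737488355328 8796093022208 2199023255552 :=
  Cov.s1 c3 c16 (by decide)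

theorem c23 : Cov (G dd) 422212465065984 211106232532992 281474976710656 35184372088832 8796093022208 2199023255552 :=
  Cov.s2 c24 c25 (by decide)

theorem c22 : Cov (G dd) 422212465065984 211106232532992 281474976710656 70368744177664 8796093022208 2199023255552 :=
  Cov.s2 c23 c26 (by decide)

theorem c20 : Cov (G dd) 0 422212465065984 281474976710656 70368744177664 8796093022208 2199023255552 :=
  Cov.s1 c21 c22 (by decide)

theorem c19 : Cov (G dd) 0 422212465065984 281474976710656 140737488355328 8796093022208 2199023255552 :=
  Cov.s2 c20 c27 (by decide)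

theorem c33 : Cov (G dd) 844424930131968 211106232532992 316659348799488 17592186044416 8796093022208 2199023255552 :=
  Cov.s2 c34 c35 (by decide)

theorem c32 : Cov (G dd) 844424930131968 422212465065984 316659348799488 17592186044416 8796093022208 2199023255552 :=
  Cov.s1 c33 c36 (by decide)

theorem c30 : Cov (G dd) 844424930131968 422212465065984 281474976710656 35184372088832 8796093022208 2199023255552 :=
  Cov.s2 c31 c32 (by decide)

theorem c29 : Cov (G dd) 844424930131968 422212465065984 281474976710656 70368744177664 8796093022208 2199023255552 :=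
  Cov.s2 c30 c37 (by decide)

theorem c28 : Cov (G dd) 844424930131968 422212465065984 281474976710656 140737488355328 8796093022208 2199023255552 :=
  Cov.s2 c29 c38 (by decide)

theorem c18 : Cov (G dd) 0 844424930131968 281474976710656 140737488355328 8796093022208 2199023255552 :=
  Cov.s1 c19 c28 (by decide)

theorem c17 : Cov (G dd) 0 1688849860263936 281474976710656 140737488355328 8796093022208 2199023255552 :=
  Cov.s1 c18 c39 (by decide)

theorem c1 : Cov (G dd) 0 1688849860263936 0 281474976710656 8796093022208 2199023255552 :=
  Cov.s2 c2 c17 (by decide)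

theorem cert (x : ℝ) (xa : 67 / 3 ≤ x) (xb : x ≤ 33) :
    ∃ (q : ℝ) (F : ℝ × ℝ → ℝ) (j : ℝ → ℝ → J6) (κ τ₀ τ₁ C δ e : ℝ),
      q < x - 1 ∧ CertR (x - 2) q F j κ τ₀ τ₁ C δ e :=
  piece ok c1 x (by push_cast; exact xa) (by push_cast; exact xb)

end Pool.Agent.MP_815c6c_an.W.G22
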