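import Pool.Agent.MP_815c6c_an.W.LA

/-! Data of the slab. -/

set_option autoImplicit false
set_option maxRecDepth 4000

namespace Pool.Agent.MP_815c6c_an.W.G22

open AA LA

def pc : Pc := ⟨1153202979583557632, [1152915079335772160, 1152832650323427328, 1152978765110837248, 1152981256191868928, 1152865807470952448, 1152893518599946240, 1152939148332498944, 1152926040092311552],
  1152915079335772160, [1152743796040007680, 1153093286118817792, 1153160510946934784, 1152643018927374336, 1152753588565442560, 1153045010686410752, 1152957788490563584],
  1152743796040007680, [1153265067630788608, 1153638523627110400, 1151807561888956416, 1152081924399824896, 1153662541084229632, 1153175491792863232],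
  461794883665920, 295837347348480, 1153427279955623936, [(1153812143045065660, 115855406597553), (1153209357364565490, 238865713804347), (1153234831513530251, 226237811421357), (1153266097571615774, 212873755523393), (1153297842017475282, 201188094811459), (1153334216573575871, 189635620108463), (1153372590107160616, 179138550816875), (1153414551549050256, 169212125233281), (1153461382295067970, 159659864061060), (1153512364763552778, 150690695243062), (1153568489900607937, 142177905723198), (1153630509458449711, 134078796011101), (1153697586258473624, 126535172568994), (1153770335370674801, 119476430864535)],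
  33, 31, 30, 35, 37, 28⟩

def dd : Pw.D := ⟨[281474976710656 / 2 ^ 48, -6425271074816 / 2 ^ 48, -88854283419648 / 2 ^ 48, 57260503990272 / 2 ^ 48, 59751585021952 / 2 ^ 48, -55697135894528 / 2 ^ 48, -27986006900736 / 2 ^ 48, 17643725651968 / 2 ^ 48, 4535485464576 / 2 ^ 48],
  105 / 64, 12, 115 / 64, 163 / 64, 64, 105, [(768 / 115, 52129 / 16384), (67 / 64, 1053 / 1024), (77 / 64, 18339 / 16384), (45 / 32, 20169 / 16384), (13 / 8, 22027 / 16384), (121 / 64, 6039 / 4096), (35 / 16, 13201 / 8192), (81 / 32, 14429 / 8192), (47 / 16, 31599 / 16384), (109 / 32, 34583 / 16384), (253 / 64, 9467 / 4096), (147 / 32, 20749 / 8192), (341 / 64, 2839 / 1024), (395 / 64, 24841 / 8192)]⟩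

theorem ok : okB pc dd (67 / 3) (33) 1688849860263936 8796093022208 2199023255552 = true := by decide +kernel

end Pool.Agent.MP_815c6c_an.W.G22
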