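import Pool.Agent.MP_815c6c_an.W.LA

/-! Data of the slab. -/

set_option autoImplicit false
set_option maxRecDepth 4000

namespace Pool.Agent.MP_815c6c_an.W.G257

open AA LA

def pc : Pc := ⟨1153202979583557632, [1152920628433518592, 1152812790394650624, 1153003555662069760, 1153140015362998272, 1152799098038910976, 1152666400729333760, 1152979177427697664, 1153029273926238208],
  1152920628433518592, [1152704076182454272, 1153167657772515328, 1153795547631452160, 1152309471767166976, 1151390881341767680, 1153325214352801792, 1153783659161976832],
  1152704076182454272, [1153413810938183680, 1155543633680662528, 1150473373248126976, 1145268388281450496, 1155343763082575872, 1158956586492755968],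
  422212465065984, 211106232532992, 1153524036978868224, [(1153947195209154560, 136758746974345), (1153210307049422848, 257748078176441), (1153238361557696512, 246060493066585), (1153273083499380736, 233587533466064), (1153308660240220160, 222598185611534), (1153349776079585280, 211642631638547), (1153393524700348416, 201605245357863), (1153441752468684800, 192028047408104), (1153496032215040000, 182735291439558), (1153555628812140544, 173935093074564), (1153621790266753024, 165509942758442), (1153695542337863680, 157428797171877), (1153775978938368000, 149835257482720), (1153863971963404288, 142671950197127)],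
  37, 31, 30, 39, 37, 28⟩

def dd : Pw.D := ⟨[281474976710656 / 2 ^ 48, -876173328384 / 2 ^ 48, -108714212196352 / 2 ^ 48, 82051055222784 / 2 ^ 48, 218510756151296 / 2 ^ 48, -122406567936000 / 2 ^ 48, -255103877513216 / 2 ^ 48, 57672820850688 / 2 ^ 48, 107769319391232 / 2 ^ 48],
  3 / 2, 15, 137 / 64, 3057 / 1024, 64, 96, [(960 / 137, 14999 / 4096), (67 / 64, 16893 / 16384), (77 / 64, 9267 / 8192), (45 / 32, 20565 / 16384), (13 / 8, 11323 / 8192), (121 / 64, 25051 / 16384), (35 / 16, 13805 / 8192), (81 / 32, 30431 / 16384), (47 / 16, 16803 / 8192), (109 / 32, 9273 / 4096), (253 / 64, 20481 / 8192), (147 / 32, 11319 / 4096), (341 / 64, 49981 / 16384), (395 / 64, 6891 / 2048)]⟩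

theorem ok : okB pc dd (257) (513) 2111062325329920 549755813888 274877906944 = true := by decide +kernel

end Pool.Agent.MP_815c6c_an.W.G257
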