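import Pool.Agent.MP_815c6c_an.W.LA

/-! Data of the slab. -/

set_option autoImplicit false
set_option maxRecDepth 4000

namespace Pool.Agent.MP_815c6c_an.W.G33

open AA LA

def pc : Pc := ⟨1153202979583557632, [1152912107218403328, 1152830073343049728, 1152980706436055040, 1153019687559233536, 1152854262598860800, 1152840827941158912, 1152946587215855616, 1152948786239111168],
  1152912107218403328, [1152738642079252480, 1153099110094471168, 1153314236416393216, 1152585294566916096, 1152437444612718592, 1153097082869907456, 1153139757664960512],
  1152738642079252480, [1153276715582095360, 1154099700035485696, 1151576664447123456, 1150501204636205056, 1153974974185209856, 1154449276013641728],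
  435406604599296, 238112986890240, 1153519638932357120, [(1153808473100987382, 129750819714254), (1153212104220055697, 238865373777082), (1153239447479270928, 227400459316557), (1153273178867685687, 215194438453088), (1153307633440538128, 204471066942335), (1153347339709902311, 193815746328456), (1153389439375381680, 184073067171011), (1153435740398070443, 174815628247854), (1153487689146843964, 165856740627761), (1153544562437264560, 157400038448257), (1153607513920697107, 149328416622321), (1153677456187027250, 141605335730562), (1153753511083723518, 134370922074426)],
  34, 31, 30, 36, 37, 28⟩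

def dd : Pw.D := ⟨[281474976710656 / 2 ^ 48, -9397388443648 / 2 ^ 48, -91431263797248 / 2 ^ 48, 59201829208064 / 2 ^ 48, 98182952386560 / 2 ^ 48, -67242007986176 / 2 ^ 48, -80676665688064 / 2 ^ 48, 25082609008640 / 2 ^ 48, 27281632264192 / 2 ^ 48],
  99 / 64, 25 / 2, 17 / 8, 2903 / 1024, 64, 99, [(100 / 17, 6439 / 2048), (67 / 64, 16877 / 16384), (77 / 64, 18465 / 16384), (45 / 32, 2553 / 2048), (13 / 8, 22425 / 16384), (121 / 64, 24731 / 16384), (35 / 16, 3397 / 2048), (81 / 32, 29865 / 16384), (47 / 16, 16441 / 8192), (109 / 32, 36185 / 16384), (253 / 64, 39841 / 16384), (147 / 32, 43903 / 16384), (341 / 64, 755 / 256)]⟩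

theorem ok : okB pc dd (33) (65) 1759218604441600 4398046511104 2199023255552 = true := by decide +kernel

end Pool.Agent.MP_815c6c_an.W.G33
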