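import Pool.Agent.MP_815c6c_an.W.LA

/-! Data of the slab. -/

set_option autoImplicit false
set_option maxRecDepth 4000

namespace Pool.Agent.MP_815c6c_an.W.G4097

open AA LA

def pc : Pc := ⟨1153202979583557632, [1152938736015638528, 1152918635568693248, 1152907228135555072, 1152913172370292736, 1152926177531265024, 1152925868293619712],
  1152938736015638528, [1152915766530539520, 1152878675192971264, 1152888175660630016, 1152944869228937216, 1152947686727483392],
  1152915766530539520, [1152835845779095552, 1152821517768196096, 1153014963095207936, 1153052415210029056],
  365037860421632, 108370614812672, 1153853890467201024, [(1153950356631936926, 192533712297535), (1153210490959445424, 280706837271812), (1153243196437431852, 271894089544751), (1153284329407143048, 262364405960536), (1153327113824727583, 253819472376284), (1153377338270360046, 245172347058135), (1153431597696878913, 237122008429090), (1153492360763476289, 229330667309443), (1153561789675099741, 221649106430588), (1153639220447552772, 214262662903233), (1153726525856774219, 207079583764368), (1153825374375873228, 200082447300544)],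
  41, 31, 30, 43, 37, 28⟩

def dd : Pw.D := ⟨[281474976710656 / 2 ^ 48, 17231408791552 / 2 ^ 48, -2869038153728 / 2 ^ 48, -14276471291904 / 2 ^ 48, -8332236554240 / 2 ^ 48, 4672924418048 / 2 ^ 48, 4363686772736 / 2 ^ 48],
  83 / 64, 18, 53 / 16, 4433 / 1024, 64, 83, [(288 / 53, 60431 / 16384), (67 / 64, 8487 / 8192), (77 / 64, 18895 / 16384), (45 / 32, 21311 / 16384), (13 / 8, 1489 / 1024), (121 / 64, 13387 / 8192), (35 / 16, 29961 / 16384), (81 / 32, 16765 / 8192), (47 / 16, 4701 / 2048), (109 / 32, 10539 / 4096), (253 / 64, 11821 / 4096), (147 / 32, 26545 / 8192)]⟩

theorem ok : okB pc dd (4097) (8193) 2533274790395904 34359738368 17179869184 = true := by decide +kernel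

end Pool.Agent.MP_815c6c_an.W.G4097
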