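import Pool.Agent.MP_815c6c_an.W.LA

/-! Data of the slab. -/

set_option autoImplicit false
set_option maxRecDepth 4000

namespace Pool.Agent.MP_815c6c_an.W.G513

open AA LA

def pc : Pc := ⟨1153202979583557632, [1152921642045800448, 1152806914879389696, 1153007163434598400, 1153154532352458752, 1152792878926266368, 1152648190067998720, 1152982561861926912, 1153037417184231424],
  1152921642045800448, [1152692325151932416, 1153178481090101248, 1153853615589294080, 1152278376203943936, 1151281617373757440, 1153348905392406528, 1153848805225922560],
  1152692325151932416, [1153435457573355520, 1155717837554188288, 1150348990995234816, 1144722068441399296, 1155485909320204288, 1159412608940376064],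
  417814418554880, 202378858987520, 1153541629164912640, [(1153985393462400917, 137275981361799), (1153210046359212765, 258281308393440), (1153238391684631585, 246815778489182), (1153273515982454784, 234570451834905), (1153309528206134477, 223760753593665), (1153351192419400694, 212974094726668), (1153395554561230870, 203074404748851), (1153444527087315915, 193626349198349), (1153499698018899171, 184448193130997), (1153560333109599308, 175746589831550), (1153627730097206585, 167410226171623), (1153702930587052658, 159404152721975), (1153785046653281033, 151875676342147), (1153874932070753722, 144760367727671)],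
  38, 31, 30, 40, 37, 28⟩

def dd : Pw.D := ⟨[281474976710656 / 2 ^ 48, 137438953472 / 2 ^ 48, -114589727457280 / 2 ^ 48, 85658827751424 / 2 ^ 48, 233027745611776 / 2 ^ 48, -128625680580608 / 2 ^ 48, -273314538848256 / 2 ^ 48, 61057255079936 / 2 ^ 48, 115912577384448 / 2 ^ 48],
  95 / 64, 16, 141 / 64, 3119 / 1024, 64, 95, [(1024 / 141, 62305 / 16384), (67 / 64, 8449 / 8192), (77 / 64, 9279 / 8192), (45 / 32, 20615 / 16384), (13 / 8, 5681 / 4096), (121 / 64, 6291 / 4096), (35 / 16, 13881 / 8192), (81 / 32, 15315 / 8192), (47 / 16, 33861 / 16384), (109 / 32, 9353 / 4096), (253 / 64, 41359 / 16384), (147 / 32, 45763 / 16384), (341 / 64, 12643 / 4096), (395 / 64, 13959 / 4096)]⟩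

theorem ok : okB pc dd (513) (1025) 2251799813685248 274877906944 137438953472 = true := by decide +kernel

end Pool.Agent.MP_815c6c_an.W.G513
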