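import Pool.Agent.MP_815c6c_an.W.LA

/-! Data of the slab. -/

set_option autoImplicit false
set_option maxRecDepth 4000

namespace Pool.Agent.MP_815c6c_an.W.G65

open AA LA

def pc : Pc := ⟨1153202979583557632, [1152916385005830144, 1152830331041087488, 1153001442538160128, 1153078477071581184, 1152813752467324928, 1152750753887027200, 1152967718454951936, 1152990189723844608],
  1152916385005830144, [1152739157475328000, 1153161318400786432, 1153549394465783808, 1152382743909236736, 1151897000287928320, 1153245001543581696, 1153470985542828032],
  1152739157475328000, [1153401132194725888, 1154805174183657472, 1150766461816406016, 1147798983012253696, 1154862486227255296, 1156767871158714368],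
  417814418554880, 202378858987520, 1153541629164912640, [(1153911379815419775, 140938850608808), (1153208381161539606, 256790746177639), (1153236562903804357, 245391384769142), (1153271484496478208, 233216726880424), (1153307288890716980, 222469412277639), (1153348712656455530, 211745004087014), (1153392818780795182, 201902446016732), (1153441508682491150, 192508915955140), (1153496361218188386, 183383727765060), (1153556646378900513, 174732342118511), (1153623654413068569, 166444088284131), (1153698420914836017, 158484218528645), (1153780063082637938, 150999189591856), (1153869429764132908, 143924943995994)],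
  35, 31, 30, 37, 37, 28⟩

def dd : Pw.D := ⟨[281474976710656 / 2 ^ 48, -5119601016832 / 2 ^ 48, -91173565759488 / 2 ^ 48, 79937931313152 / 2 ^ 48, 156972464734208 / 2 ^ 48, -107752139522048 / 2 ^ 48, -170750719819776 / 2 ^ 48, 46213848104960 / 2 ^ 48, 68685116997632 / 2 ^ 48],
  95 / 64, 29 / 2, 141 / 64, 3101 / 1024, 64, 95, [(928 / 141, 58307 / 16384), (67 / 64, 8449 / 8192), (77 / 64, 9279 / 8192), (45 / 32, 20615 / 16384), (13 / 8, 5681 / 4096), (121 / 64, 6291 / 4096), (35 / 16, 13881 / 8192), (81 / 32, 15315 / 8192), (47 / 16, 33861 / 16384), (109 / 32, 9353 / 4096), (253 / 64, 41359 / 16384), (147 / 32, 45763 / 16384), (341 / 64, 12643 / 4096), (395 / 64, 13959 / 4096)]⟩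

theorem ok : okB pc dd (65) (129) 2040693581152256 2199023255552 1099511627776 = true := by decide +kernel

end Pool.Agent.MP_815c6c_an.W.G65
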