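import Pool.Agent.MP_815c6c_an.W.LA

/-! Data of the slab. -/

set_option autoImplicit false
set_option maxRecDepth 4000

namespace Pool.Agent.MP_815c6c_an.W.G8193

open AA LA

def pc : Pc := ⟨1153202979583557632, [1152925954192965632, 1152920886131556352, 1152917707855757312, 1152919116605030400, 1152922793097035776, 1152922793097035776],
  1152925954192965632, [1152920267656265728, 1152910114353577984, 1152911952599580672, 1152927947057790976, 1152929235547979776],
  1152920267656265728, [1152898724100308992, 1152892848585048064, 1152947274410622976, 1152960159312510976],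
  365037860421632, 108370614812672, 1153849492420689920, [(1153836893390030182, 198929990233363), (1153208991594205234, 280573890887455), (1153241527384397010, 271765316991562), (1153282446941452363, 262240146788599), (1153325009378074921, 253699260195278), (1153374973241201282, 245056230267385), (1153428951150280507, 237009704382710), (1153489398956212027, 229222053342868), (1153558467645645689, 221544130550477), (1153635496679374059, 214161185338195), (1153722349116700154, 206981508198403)],
  42, 31, 30, 44, 37, 28⟩

def dd : Pw.D := ⟨[281474976710656 / 2 ^ 48, 4449586118656 / 2 ^ 48, -618475290624 / 2 ^ 48, -3796751089664 / 2 ^ 48, -2388001816576 / 2 ^ 48, 1288490188800 / 2 ^ 48, 1288490188800 / 2 ^ 48],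
  83 / 64, 31 / 2, 211 / 64, 2205 / 512, 64, 83, [(992 / 211, 54047 / 16384), (67 / 64, 8487 / 8192), (77 / 64, 18895 / 16384), (45 / 32, 21311 / 16384), (13 / 8, 1489 / 1024), (121 / 64, 13387 / 8192), (35 / 16, 29961 / 16384), (81 / 32, 16765 / 8192), (47 / 16, 4701 / 2048), (109 / 32, 10539 / 4096), (253 / 64, 11821 / 4096)]⟩

theorem ok : okB pc dd (8193) (16385) 2181431069507584 17179869184 8589934592 = true := by decide +kernel

end Pool.Agent.MP_815c6c_an.W.G8193
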